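import Mathlib
import Pool.Agent.Lib_MP_fa2e48_al.Defs

/-!
# Ulm subgroups and direct sums of cyclic groups
-/

namespace Pool.Agent.Lib_MP_fa2e48_ulm

open Pool.Agent.Lib_MP_fa2e48_al

universe u

/-- `C` is isomorphic to a direct sum of cyclic groups. -/
def IsSumOfCyclics (C : Type u) [AddCommGroup C] : Prop :=
  ∃ (ι : Type u) (m : ι → ℕ), Nonempty (C ≃+ DirectSum ι fun i => ZMod (m i))

/-- The Ulm subgroups `p ^ (ω n) A`: `ulm p A 0 = A`, and `ulm p A (n + 1)` is the subgroup of all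
elements of `ulm p A n` that have infinite `p`-height in `ulm p A n`. -/
def ulm (p : ℕ) (A : Type u) [AddCommGroup A] : ℕ → AddSubgroup A
  | 0 => ⊤
  | n + 1 => (infHeight p (ulm p A n)).toAddSubgroup.map (ulm p A n).subtype

end Pool.Agent.Lib_MP_fa2e48_ulm
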