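import Mathlib
import Pool.Agent.Lib_MP_fa2e48_al.Defs

/-!
# Bases of an abelian group modulo a subgroup with cyclic factors of `p`-power order
-/

namespace Pool.Agent.Lib_MP_fa2e48_ulm

open Finsupp

/-- A basis of `A` modulo `H`: `A / H` is the direct sum of the cyclic groups of order `p ^ n i`
generated by the classes of the `a i`. -/
structure RelBasis (p : ℕ) {A : Type*} [AddCommGroup A] (H : AddSubgroup A) (ι : Type*) where
  a : ι → A
  n : ι → ℕ
  mem : ∀ i, p ^ n i • a i ∈ H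
  span : ∀ x : A, ∃ h ∈ H, ∃ β : ι →₀ ℤ, x = h + linearCombination ℤ a β
  indep : ∀ β : ι →₀ ℤ, linearCombination ℤ a β ∈ H → ∀ i, ((p ^ n i : ℕ) : ℤ) ∣ β i

namespace RelBasis

variable {p : ℕ} {A : Type*} [AddCommGroup A] {H : AddSubgroup A} {ι : Type*}
  (b : RelBasis p H ι) {G : Type*} [AddCommGroup G]

/-- Homomorphisms out of `A` are determined by the values on `H` and on the basis. -/
theorem hom_ext {ψ χ : A →+ G} (hH : ∀ h ∈ H, ψ h = χ h) (ha : ∀ i, ψ (b.a i) = χ (b.a i)) :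
    ψ = χ := by
  ext x
  obtain ⟨h, hh, β, rfl⟩ := b.span x
  rw [map_add, map_add, hH h hh]
  congr 1
  rw [linearCombination_apply, Finsupp.sum, map_sum, map_sum]
  refine Finset.sum_congr rfl fun i _ => ?_
  rw [map_zsmul, map_zsmul, ha]

/-- Extension of homomorphisms from `H` to `A`. -/
theorem exists_hom (φ : H →+ G) (g : ι → G)
    (hg : ∀ i, p ^ b.n i • g i = φ ⟨_, b.mem i⟩) :
    ∃ ψ : A →+ G, (∀ h : H, ψ h = φ h) ∧ ∀ i, ψ (b.a i) = g i := by
  let Φ : (H × (ι →₀ ℤ)) →+ A :=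
    AddMonoidHom.coprod H.subtype (linearCombination ℤ b.a).toAddMonoidHom
  let Ψ : (H × (ι →₀ ℤ)) →+ G :=
    AddMonoidHom.coprod φ (linearCombination ℤ g).toAddMonoidHom
  have hΦ : ∀ h β, Φ (h, β) = h + linearCombination ℤ b.a β := fun h β => rfl
  have hΨ : ∀ h β, Ψ (h, β) = φ h + linearCombination ℤ g β := fun h β => rfl
  have hsurj : Function.Surjective Φ := by
    intro x
    obtain ⟨h, hh, β, rfl⟩ := b.span x
    exact ⟨(⟨h, hh⟩, β), rfl⟩
  have hker : Φ.ker ≤ Ψ.ker := by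
    rintro ⟨h, β⟩ hx
    rw [AddMonoidHom.mem_ker, hΦ] at hx
    rw [AddMonoidHom.mem_ker, hΨ]
    have h1 : linearCombination ℤ b.a β = ((-h : H) : A) := by
      rw [AddSubgroup.coe_neg, eq_neg_iff_add_eq_zero, add_comm]; exact hx
    have h2 : ∀ i, ((p ^ b.n i : ℕ) : ℤ) ∣ β i := b.indep β (by rw [h1]; exact (-h).2)
    choose γ hγ using h2
    have h3 : linearCombination ℤ g β = φ (∑ i ∈ β.support, γ i • ⟨_, b.mem i⟩) := by
      rw [linearCombination_apply, Finsupp.sum, map_sum]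
      refine Finset.sum_congr rfl fun i _ => ?_
      rw [map_zsmul, ← hg, hγ i, mul_comm, mul_smul, natCast_zsmul]
    have h4 : (∑ i ∈ β.support, γ i • (⟨_, b.mem i⟩ : H)) = -h := by
      apply Subtype.ext
      rw [← h1, linearCombination_apply, Finsupp.sum, AddSubgroup.val_finsetSum]
      refine Finset.sum_congr rfl fun i _ => ?_
      rw [AddSubgroup.coe_zsmul, hγ i, mul_comm ((p ^ b.n i : ℕ) : ℤ), mul_smul, natCast_zsmul]
    rw [h3, h4, map_neg, add_neg_cancel]
  let ψ : A →+ G := Φ.liftOfRightInverse _ (Function.rightInverse_surjInv hsurj) ⟨Ψ, hker⟩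
  have hψ : ∀ x, ψ (Φ x) = Ψ x := fun x =>
    AddMonoidHom.liftOfRightInverse_comp_apply _ _ _ ⟨Ψ, hker⟩ x
  refine ⟨ψ, fun h => ?_, fun i => ?_⟩
  · have := hψ (h, 0)
    rw [hΦ, hΨ, map_zero, map_zero, add_zero, add_zero] at this
    exact this
  · have := hψ (0, single i 1)
    rw [hΦ, hΨ, map_zero, ZeroMemClass.coe_zero, zero_add, zero_add, linearCombination_single,
      linearCombination_single, one_smul, one_smul] at this
    exact this

/-- The homomorphism killing `H` with prescribed values on the basis. -/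
noncomputable def hom (ρ : ι → G) (hρ : ∀ i, p ^ b.n i • ρ i = 0) : A →+ G :=
  Classical.choose (b.exists_hom (0 : H →+ G) ρ (fun i => by rw [hρ]; rfl))

theorem hom_H (ρ : ι → G) (hρ : ∀ i, p ^ b.n i • ρ i = 0) {h : A} (hh : h ∈ H) :
    b.hom ρ hρ h = 0 :=
  (Classical.choose_spec (b.exists_hom (0 : H →+ G) ρ (fun i => by rw [hρ]; rfl))).1 ⟨h, hh⟩

theorem hom_a (ρ : ι → G) (hρ : ∀ i, p ^ b.n i • ρ i = 0) (i : ι) :
    b.hom ρ hρ (b.a i) = ρ i :=
  (Classical.choose_spec (b.exists_hom (0 : H →+ G) ρ (fun i => by rw [hρ]; rfl))).2 i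

theorem hom_lc (ρ : ι → G) (hρ : ∀ i, p ^ b.n i • ρ i = 0) (β : ι →₀ ℤ) :
    b.hom ρ hρ (linearCombination ℤ b.a β) = linearCombination ℤ ρ β := by
  rw [linearCombination_apply, linearCombination_apply, Finsupp.sum, Finsupp.sum, map_sum]
  refine Finset.sum_congr rfl fun i _ => ?_
  rw [map_zsmul, b.hom_a]

theorem hom_add_lc (ρ : ι → G) (hρ : ∀ i, p ^ b.n i • ρ i = 0) {h : A} (hh : h ∈ H)
    (β : ι →₀ ℤ) :
    b.hom ρ hρ (h + linearCombination ℤ b.a β) = linearCombination ℤ ρ β := by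
  rw [map_add, b.hom_H ρ hρ hh, b.hom_lc, zero_add]

end RelBasis

/-- `linearCombination` only depends on the values on the support. -/
theorem lc_congr {ι G : Type*} [AddCommGroup G] {ρ ρ' : ι → G} {β : ι →₀ ℤ}
    (h : ∀ i ∈ β.support, ρ i = ρ' i) :
    linearCombination ℤ ρ β = linearCombination ℤ ρ' β := by
  rw [linearCombination_apply, linearCombination_apply, Finsupp.sum, Finsupp.sum]
  exact Finset.sum_congr rfl fun i hi => by rw [h i hi]

theorem lc_zero {ι G : Type*} [AddCommGroup G] {ρ : ι → G} {β : ι →₀ ℤ}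
    (h : ∀ i ∈ β.support, ρ i = 0) : linearCombination ℤ ρ β = 0 := by
  rw [linearCombination_apply, Finsupp.sum]
  exact Finset.sum_eq_zero fun i hi => by rw [h i hi, smul_zero]

section Omega

open Pool.Agent.Lib_MP_fa2e48_al

variable {p : ℕ} {A : Type*} [AddCommGroup A] {ι : Type*}

/-- For a basis modulo `p ^ ω A`: the elements `a i` can be corrected to elements of order
`p ^ n i` by elements `d` of large height. -/
theorem exists_corr (b : RelBasis p (infHeight p A).toAddSubgroup ι) (i : ι) (N : ℕ) :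
    ∃ h ∈ infHeight p A, ∃ β : ι →₀ ℤ,
      p ^ b.n i • (h + linearCombination ℤ b.a β) = p ^ b.n i • b.a i ∧
      (∃ g : A, p ^ N • g = h + linearCombination ℤ b.a β) ∧
      ∀ j ∈ β.support, N < b.n j := by
  have h1 : p ^ b.n i • b.a i ∈ infHeight p A := b.mem i
  obtain ⟨g, hg⟩ := h1 (b.n i + N)
  obtain ⟨h, hh, γ, hγ⟩ := b.span g
  classical
  let δ : ι →₀ ℤ := ((p ^ N : ℕ) : ℤ) • γ
  have hδ : p ^ N • g = p ^ N • h + linearCombination ℤ b.a δ := by
    rw [hγ, smul_add, map_smul, natCast_zsmul]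
  have hsplit : δ = δ.filter (fun j => N < b.n j) + δ.filter (fun j => ¬ N < b.n j) :=
    (Finsupp.filter_add_filter_not _ _).symm
  have hlow : linearCombination ℤ b.a (δ.filter (fun j => ¬ N < b.n j)) ∈ infHeight p A := by
    rw [linearCombination_apply, Finsupp.sum]
    refine Submodule.sum_mem _ fun j hj => ?_
    rw [Finsupp.mem_support_iff, Finsupp.filter_apply] at hj
    have hjn : b.n j ≤ N := by
      by_contra hc
      exact hj (if_neg (by simpa using (not_le.1 hc)))
    rw [Finsupp.filter_apply_pos _ _ (by simpa using hjn)]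
    have : δ j • b.a j = (γ j * ((p ^ (N - b.n j) : ℕ) : ℤ)) • (p ^ b.n j • b.a j) := by
      show (((p ^ N : ℕ) : ℤ) • γ) j • b.a j = _
      rw [Finsupp.smul_apply, smul_eq_mul, ← natCast_zsmul, smul_smul]
      congr 1
      rw [mul_assoc, ← Nat.cast_mul, ← pow_add, Nat.sub_add_cancel hjn, mul_comm]
    rw [this]
    exact (infHeight p A).toAddSubgroup.zsmul_mem (b.mem j) _
  refine ⟨p ^ N • h + linearCombination ℤ b.a (δ.filter (fun j => ¬ N < b.n j)),
    add_mem ((infHeight p A).toAddSubgroup.nsmul_mem hh _) hlow,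
    δ.filter (fun j => N < b.n j), ?_, ⟨g, ?_⟩, ?_⟩
  · have h2 : p ^ N • h + linearCombination ℤ b.a (δ.filter (fun j => ¬ N < b.n j)) +
        linearCombination ℤ b.a (δ.filter (fun j => N < b.n j)) = p ^ N • g := by
      rw [hδ, add_assoc, ← map_add, add_comm (δ.filter (fun j => ¬ N < b.n j)), ← hsplit]
    rw [h2, smul_smul, ← pow_add]
    exact hg
  · rw [hδ, add_assoc, ← map_add, add_comm (δ.filter (fun j => ¬ N < b.n j)), ← hsplit]
  · intro j hj
    by_contra hc
    rw [Finsupp.mem_support_iff, Finsupp.filter_apply, if_neg hc] at hj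
    exact hj rfl

end Omega

end Pool.Agent.Lib_MP_fa2e48_ulm
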