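import Mathlib
import Pool.Agent.Lib_MP_fa2e48_ulm.Basis

/-!
# A transfinite construction over a basis modulo `p ^ ω A`
-/

namespace Pool.Agent.Lib_MP_fa2e48_ulm

open Finsupp Pool.Agent.Lib_MP_fa2e48_al

/-- Closure of a countable set under countably many finite-valued operations. -/
theorem exists_closed {ι : Type*} (F : ι → ℕ → Finset ι) (S : Set ι) (hS : S.Countable) :
    ∃ Γ : Set ι, Γ.Countable ∧ S ⊆ Γ ∧ ∀ i ∈ Γ, ∀ N, ∀ j ∈ F i N, j ∈ Γ := by
  let T : ℕ → Set ι := fun m => Nat.rec S (fun _ U => U ∪ ⋃ i ∈ U, ⋃ N, (F i N : Set ι)) m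
  have hT : ∀ m, T (m + 1) = T m ∪ ⋃ i ∈ T m, ⋃ N, (F i N : Set ι) := fun m => rfl
  have hc : ∀ m, (T m).Countable := by
    intro m
    induction m with
    | zero => exact hS
    | succ m ih =>
      rw [hT]
      exact ih.union (ih.biUnion fun i _ => Set.countable_iUnion fun N =>
        (F i N).finite_toSet.countable)
  refine ⟨⋃ m, T m, Set.countable_iUnion hc, Set.subset_iUnion T 0, ?_⟩
  intro i hi N j hj
  obtain ⟨m, hm⟩ := Set.mem_iUnion.1 hi
  refine Set.mem_iUnion.2 ⟨m + 1, ?_⟩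
  rw [hT]
  exact Or.inr (Set.mem_biUnion hm (Set.mem_iUnion.2 ⟨N, hj⟩))

variable {p : ℕ} {A : Type*} [AddCommGroup A] {ι : Type*}

/-- Simultaneous choice of corrections. -/
structure Corr (b : RelBasis p (infHeight p A).toAddSubgroup ι) where
  h : ι → ℕ → A
  β : ι → ℕ → (ι →₀ ℤ)
  mem : ∀ i N, h i N ∈ infHeight p A
  eq : ∀ i N, p ^ b.n i • (h i N + linearCombination ℤ b.a (β i N)) = p ^ b.n i • b.a i
  div : ∀ i N, ∃ g : A, p ^ N • g = h i N + linearCombination ℤ b.a (β i N)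
  supp : ∀ i N, ∀ j ∈ (β i N).support, N < b.n j

theorem nonempty_corr (b : RelBasis p (infHeight p A).toAddSubgroup ι) : Nonempty (Corr b) := by
  choose h hh β h1 h2 h3 using exists_corr b
  exact ⟨⟨h, β, hh, h1, h2, h3⟩⟩

/-- `r` kills `p ^ ω A` and is the identity modulo `p A`. -/
def IsApprox (p : ℕ) (r : A →+ A) : Prop :=
  (∀ h ∈ infHeight p A, r h = 0) ∧ ∀ x, ∃ g : A, p • g = x - r x

theorem exists_approx (b : RelBasis p (infHeight p A).toAddSubgroup ι) (c : Corr b) :
    ∃ r : A →+ A, IsApprox p r := by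
  have hρ : ∀ i, p ^ b.n i • (b.a i - (c.h i 1 + linearCombination ℤ b.a (c.β i 1))) = 0 := by
    intro i
    rw [smul_sub, c.eq, sub_self]
  refine ⟨b.hom _ hρ, fun h hh => b.hom_H _ hρ hh, fun x => ?_⟩
  obtain ⟨h, hh, β, rfl⟩ := b.span x
  rw [b.hom_add_lc _ hρ hh]
  have h1 : linearCombination ℤ (fun i => b.a i -
      (c.h i 1 + linearCombination ℤ b.a (c.β i 1))) β = linearCombination ℤ b.a β -
      linearCombination ℤ (fun i => c.h i 1 + linearCombination ℤ b.a (c.β i 1)) β := by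
    rw [linearCombination_apply, linearCombination_apply, linearCombination_apply]
    simp only [Finsupp.sum, smul_sub, Finset.sum_sub_distrib]
  choose g hg using fun i => c.div i 1
  obtain ⟨g', hg'⟩ := hh 1
  refine ⟨g' + linearCombination ℤ g β, ?_⟩
  have h2 : p • linearCombination ℤ g β =
      linearCombination ℤ (fun i => c.h i 1 + linearCombination ℤ b.a (c.β i 1)) β := by
    rw [linearCombination_apply, linearCombination_apply]
    simp only [Finsupp.sum, Finset.smul_sum]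
    refine Finset.sum_congr rfl fun i _ => ?_
    rw [← hg i, pow_one, smul_comm]
  rw [h1, smul_add, h2, ← hg', pow_one]
  abel

theorem approx_decomp {r : A →+ A} (hr : IsApprox p r) (m : ℕ) (t : A) (ht : p ^ m • t = 0)
    (N : ℕ) : ∃ w u g : A, p ^ m • w = 0 ∧ p ^ m • u = 0 ∧ p ^ N • g = u ∧ t = r w + u := by
  induction N with
  | zero => exact ⟨0, t, t, by simp, ht, by simp, by simp⟩
  | succ N ih =>
    obtain ⟨w, u, g, hw, hu, hg, rfl⟩ := ih
    obtain ⟨g', hg'⟩ := hr.2 g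
    have h1 : p ^ (N + 1) • g' = u - r u := by
      rw [pow_succ, mul_smul, hg', smul_sub, ← map_nsmul, hg]
    refine ⟨w + u, u - r u, g', ?_, ?_, h1, ?_⟩
    · rw [smul_add, hw, hu, add_zero]
    · rw [smul_sub, ← map_nsmul, hu, map_zero, sub_zero]
    · rw [map_add]; abel

/-- Partial solutions of the factorisation problem. -/
structure PS (b : RelBasis p (infHeight p A).toAddSubgroup ι) (c : Corr b) (r : A →+ A)
    (t : ℕ → ι → A) (Λ : Set ι) where
  S : Set ι
  ρ : ι → A
  ord : ∀ i, p ^ b.n i • ρ i = 0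
  out : ∀ i, i ∉ S → ρ i = 0
  closed : ∀ i ∈ S, ∀ N, ∀ j ∈ (c.β i N).support, j ∈ S
  cov : ∀ i ∈ S, ∀ k, ∃ w h : A, ∃ β : ι →₀ ℤ, p ^ b.n i • w = 0 ∧ h ∈ infHeight p A ∧
    (∀ j ∈ β.support, j ∈ S) ∧ p ^ b.n i • (h + linearCombination ℤ b.a β) = 0 ∧
    t k i = r w + linearCombination ℤ ρ β
  base : S.Nonempty → Λ ⊆ S

variable {b : RelBasis p (infHeight p A).toAddSubgroup ι} {c : Corr b} {r : A →+ A}
    {t : ℕ → ι → A} {Λ : Set ι}

/-- The extension relation. -/
def PS.Le (P Q : PS b c r t Λ) : Prop := P.S ⊆ Q.S ∧ ∀ i ∈ P.S, Q.ρ i = P.ρ i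

/-- The extension step. -/
theorem PS.extend (hr : IsApprox p r) (hΛ : Λ.Countable) (ht : ∀ k i, p ^ b.n i • t k i = 0)
    (P : PS b c r t Λ) (hP : ∀ M : ℕ, ∃ i, i ∉ P.S ∧ M ≤ b.n i) :
    ∃ Q : PS b c r t Λ, P.Le Q ∧ ∃ i, i ∈ Q.S ∧ i ∉ P.S := by
  classical
  choose pick hpickS hpickn using hP
  obtain ⟨Γ, hΓc, hΓS, hΓcl⟩ := exists_closed (fun i N => (c.β i N).support)
    (Set.range pick ∪ Λ) ((Set.countable_range pick).union hΛ)
  have hpickΓ : ∀ M, pick M ∈ Γ := fun M => hΓS (Or.inl ⟨M, rfl⟩)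
  -- enumeration of the new indices
  obtain ⟨e, he⟩ : ∃ e : ℕ → ι, Γ \ P.S = Set.range e :=
    (hΓc.mono Set.sdiff_subset).exists_eq_range ⟨pick 0, hpickΓ 0, hpickS 0⟩
  let task : ℕ → ι := fun k => e k.unpair.2
  let tim : ℕ → ℕ := fun k => k.unpair.1
  let n := b.n
  let M : ℕ → ℕ := fun k => Nat.rec (n (task 0)) (fun k Mk => Mk + 1 + n (pick Mk) +
    ((c.β (pick Mk) (n (pick Mk))).support).sup n + n (task (k + 1))) k
  have hM : ∀ k, M (k + 1) = M k + 1 + n (pick (M k)) +
    ((c.β (pick (M k)) (n (pick (M k)))).support).sup n + n (task (k + 1)) := fun k => rfl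
  let i' : ℕ → ι := fun k => pick (M k)
  have hi'n : ∀ k, M k ≤ n (i' k) := fun k => hpickn _
  have hMtask : ∀ k, n (task k) ≤ M k := by
    intro k
    cases k with
    | zero => exact le_rfl
    | succ k => rw [hM]; omega
  have hMn : ∀ k, n (i' k) < M (k + 1) := by
    intro k
    rw [hM]
    show n (pick (M k)) < _
    omega
  have hMs : ∀ k, ∀ j ∈ (c.β (i' k) (n (i' k))).support, n j < M (k + 1) := by
    intro k j hj
    have h1 : n j ≤ ((c.β (pick (M k)) (n (pick (M k)))).support).sup n :=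
      Finset.le_sup (f := n) hj
    rw [hM]
    omega
  have hMmono : Monotone M := monotone_nat_of_le_succ fun k => by rw [hM]; omega
  have hlt : ∀ k l, k < l → n (i' k) < n (i' l) := fun k l hkl =>
    lt_of_lt_of_le (hMn k) ((hMmono hkl).trans (hi'n l))
  have hinj : Function.Injective i' := by
    intro k l hkl
    rcases lt_trichotomy k l with h | h | h
    · exact absurd (congrArg n hkl) (hlt _ _ h).ne
    · exact h
    · exact absurd (congrArg n hkl) (hlt _ _ h).ne'
  have hA : ∀ k l, i' l ∉ (c.β (i' k) (n (i' k))).support := by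
    intro k l hmem
    rcases le_or_gt l k with h | h
    · have h1 : n (i' k) < n (i' l) := c.supp _ _ _ hmem
      rcases h.lt_or_eq with h' | h'
      · exact absurd h1 (hlt _ _ h').le.not_gt
      · rw [h'] at h1; exact lt_irrefl _ h1
    · have h1 := hMs k _ hmem
      have h2 : M (k + 1) ≤ n (i' l) := (hMmono (show k + 1 ≤ l from h)).trans (hi'n l)
      omega
  have htaskn : ∀ k, n (task k) ≤ n (i' k) := fun k => (hMtask k).trans (hi'n k)
  -- the decompositions
  choose w u g hw hu hg hwu using fun k =>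
    approx_decomp hr (n (task k)) (t (tim k) (task k)) (ht _ _) (n (i' k))
  let z : ℕ → A := fun k => p ^ n (task k) • g k
  have hz : ∀ k, p ^ (n (i' k) - n (task k)) • z k = u k := by
    intro k
    show p ^ (n (i' k) - n (task k)) • p ^ n (task k) • g k = u k
    rw [smul_smul, ← pow_add, Nat.sub_add_cancel (htaskn k), hg]
  have hz0 : ∀ k, p ^ n (i' k) • z k = 0 := by
    intro k
    show p ^ n (i' k) • p ^ n (task k) • g k = 0
    rw [smul_comm, hg, hu]
  let ρ' : ι → A := Function.extend i'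
    (fun k => z k + linearCombination ℤ P.ρ (c.β (i' k) (n (i' k)))) P.ρ
  have hρi : ∀ k, ρ' (i' k) = z k + linearCombination ℤ P.ρ (c.β (i' k) (n (i' k))) :=
    fun k => hinj.extend_apply _ _ k
  have hρo : ∀ i, (¬ ∃ k, i' k = i) → ρ' i = P.ρ i := fun i hi =>
    Function.extend_apply' _ _ _ hi
  have hi'S : ∀ k, i' k ∉ P.S := fun k => hpickS _
  have hi'Γ : ∀ k, i' k ∈ Γ := fun k => hpickΓ _
  have hρS : ∀ i ∈ P.S, ρ' i = P.ρ i := by
    intro i hi
    apply hρo
    rintro ⟨k, rfl⟩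
    exact hi'S k hi
  have hρβ : ∀ k, linearCombination ℤ ρ' (c.β (i' k) (n (i' k))) =
      linearCombination ℤ P.ρ (c.β (i' k) (n (i' k))) := by
    intro k
    apply lc_congr
    intro i hi
    apply hρo
    rintro ⟨l, rfl⟩
    exact hA k l hi
  refine ⟨⟨P.S ∪ Γ, ρ', ?_, ?_, ?_, ?_, ?_⟩, ⟨Set.subset_union_left, hρS⟩,
    pick 0, Or.inr (hpickΓ 0), hpickS 0⟩
  · -- orders
    intro i
    by_cases hi : ∃ k, i' k = i
    · obtain ⟨k, rfl⟩ := hi
      rw [hρi, smul_add, hz0, zero_add]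
      have h1 : linearCombination ℤ P.ρ (c.β (i' k) (n (i' k))) =
          b.hom P.ρ P.ord (c.h (i' k) (n (i' k)) +
            linearCombination ℤ b.a (c.β (i' k) (n (i' k)))) :=
        (b.hom_add_lc P.ρ P.ord (c.mem _ _) _).symm
      rw [h1, ← map_nsmul, c.eq, map_nsmul, b.hom_a, P.ord]
    · rw [hρo i hi]; exact P.ord i
  · -- outside
    intro i hi
    rw [hρo]
    · exact P.out i fun h => hi (Or.inl h)
    · rintro ⟨k, rfl⟩
      exact hi (Or.inr (hi'Γ k))
  · -- closed
    rintro i (hi | hi) N j hj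
    · exact Or.inl (P.closed i hi N j hj)
    · exact Or.inr (hΓcl i hi N j hj)
  · -- covering
    intro i hi k
    by_cases hiS : i ∈ P.S
    · obtain ⟨w, h, β, h1, h2, h3, h4, h5⟩ := P.cov i hiS k
      refine ⟨w, h, β, h1, h2, fun j hj => Or.inl (h3 j hj), h4, ?_⟩
      rw [h5, lc_congr (fun j hj => (hρS j (h3 j hj)).symm)]
    · have hiΓ : i ∈ Γ \ P.S := ⟨hi.resolve_left hiS, hiS⟩
      rw [he] at hiΓ
      obtain ⟨q, rfl⟩ := hiΓ
      let l := Nat.pair k q
      have hl1 : tim l = k := by simp [tim, l, Nat.unpair_pair]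
      have hl2 : task l = e q := by simp [task, l, Nat.unpair_pair]
      have hle := htaskn l
      rw [hl2] at hle
      refine ⟨w l, -(p ^ (n (i' l) - n (e q)) • c.h (i' l) (n (i' l))),
        ((p ^ (n (i' l) - n (e q)) : ℕ) : ℤ) • (single (i' l) 1 - c.β (i' l) (n (i' l))),
        ?_, ?_, ?_, ?_, ?_⟩
      · have := hw l
        rw [hl2] at this
        exact this
      · exact neg_mem ((infHeight p A).toAddSubgroup.nsmul_mem (c.mem _ _) _)
      · intro j hj
        have h1 := Finsupp.support_smul hj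
        have h2 := Finsupp.support_sub h1
        rw [Finset.mem_union] at h2
        rcases h2 with h2 | h2
        · have h3 := Finsupp.support_single_subset h2
          rw [Finset.mem_singleton] at h3
          subst h3
          exact Or.inr (hi'Γ l)
        · exact Or.inr (hΓcl _ (hi'Γ l) _ _ h2)
      · have h1 : -(p ^ (n (i' l) - n (e q)) • c.h (i' l) (n (i' l))) +
            linearCombination ℤ b.a (((p ^ (n (i' l) - n (e q)) : ℕ) : ℤ) •
              (single (i' l) 1 - c.β (i' l) (n (i' l)))) =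
            p ^ (n (i' l) - n (e q)) • (b.a (i' l) - (c.h (i' l) (n (i' l)) +
              linearCombination ℤ b.a (c.β (i' l) (n (i' l))))) := by
          rw [map_smul, map_sub, linearCombination_single, one_smul, natCast_zsmul]
          simp only [smul_sub, smul_add]
          abel
        rw [h1, smul_smul, ← pow_add, Nat.add_sub_cancel' hle, smul_sub, c.eq, sub_self]
      · rw [map_smul, map_sub, linearCombination_single, one_smul, hρi, hρβ, add_sub_cancel_right,
          natCast_zsmul]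
        have h1 := hwu l
        have h2 := hz l
        rw [hl1, hl2] at h1
        rw [hl2] at h2
        rw [h2]
        exact h1
  · intro _ i hi
    exact Or.inr (hΓS (Or.inr hi))

/-- Maximal solutions cover all basis elements except for a bounded part. -/
theorem exists_PS (hr : IsApprox p r) (hΛ : Λ.Countable) (ht : ∀ k i, p ^ b.n i • t k i = 0) :
    ∃ P : PS b c r t Λ, ∃ N : ℕ, ∀ i, i ∉ P.S → b.n i < N := by
  classical
  obtain ⟨P, hP⟩ := exists_maximal_of_chains_bounded (r := PS.Le (b := b) (c := c) (r := r)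
    (t := t) (Λ := Λ)) (by
      intro C hC
      have hcoh : ∀ P ∈ C, ∀ Q ∈ C, ∀ i, i ∈ P.S → i ∈ Q.S → P.ρ i = Q.ρ i := by
        intro P hP Q hQ i hiP hiQ
        by_cases hPQ : P = Q
        · rw [hPQ]
        · rcases hC hP hQ hPQ with h | h
          · exact (h.2 i hiP).symm
          · exact h.2 i hiQ
      let S : Set ι := {i | ∃ P ∈ C, i ∈ P.S}
      let ρ : ι → A := fun i => if h : ∃ P ∈ C, i ∈ P.S then (Classical.choose h).ρ i else 0
      have hρ : ∀ P ∈ C, ∀ i ∈ P.S, ρ i = P.ρ i := by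
        intro P hP i hi
        have h : ∃ P ∈ C, i ∈ P.S := ⟨P, hP, hi⟩
        have h1 := Classical.choose_spec h
        have h2 : ρ i = (Classical.choose h).ρ i := dif_pos h
        rw [h2]
        exact hcoh _ h1.1 _ hP i h1.2 hi
      have hρ0 : ∀ i, i ∉ S → ρ i = 0 := fun i hi => dif_neg hi
      refine ⟨⟨S, ρ, ?_, hρ0, ?_, ?_, ?_⟩, ?_⟩
      · intro i
        by_cases hi : i ∈ S
        · obtain ⟨P, hP, hiP⟩ := hi
          rw [hρ P hP i hiP]
          exact P.ord i
        · rw [hρ0 i hi, smul_zero]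
      · rintro i ⟨P, hP, hiP⟩ N j hj
        exact ⟨P, hP, P.closed i hiP N j hj⟩
      · rintro i ⟨P, hP, hiP⟩ k
        obtain ⟨w, h, β, h1, h2, h3, h4, h5⟩ := P.cov i hiP k
        refine ⟨w, h, β, h1, h2, fun j hj => ⟨P, hP, h3 j hj⟩, h4, ?_⟩
        rw [h5, lc_congr (fun j hj => (hρ P hP j (h3 j hj)).symm)]
      · rintro ⟨i, P, hP, hiP⟩ j hj
        exact ⟨P, hP, P.base ⟨i, hiP⟩ hj⟩
      · intro P hP
        exact ⟨fun i hi => ⟨P, hP, hi⟩, fun i hi => hρ P hP i hi⟩) (by
      rintro P Q R ⟨h1, h2⟩ ⟨h3, h4⟩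
      exact ⟨h1.trans h3, fun i hi => by rw [h4 i (h1 hi), h2 i hi]⟩)
  refine ⟨P, ?_⟩
  by_contra hc
  push Not at hc
  obtain ⟨Q, hPQ, i, hi, hi'⟩ := P.extend hr hΛ ht (fun M => by
    obtain ⟨i, hi, hM⟩ := hc M
    exact ⟨i, hi, hM⟩)
  exact hi' ((hP Q hPQ).1 hi)

end Pool.Agent.Lib_MP_fa2e48_ulm
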