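import Mathlib
import Pool.Agent.Lib_MP_fa2e48_ulm.Zorn

/-!
# Linear maps `(End A) ^ ω → p ^ ω A` factor through `End (p ^ ω A) ^ ω`
-/

namespace Pool.Agent.Lib_MP_fa2e48_ulm

open Finsupp Pool.Agent.Lib_MP_fa2e48_al

universe u v

variable {p : ℕ} {A : Type u} [AddCommGroup A] {ι : Type v}

/-- `f` kills the left multiples of endomorphisms vanishing on `p ^ ω A`. -/
theorem kills_mul (f : (ℕ → AddMonoid.End A) →ₗ[AddMonoid.End A] infHeight p A)
    (r : AddMonoid.End A) (hr : ∀ h ∈ infHeight p A, r h = 0) (Y : ℕ → AddMonoid.End A) :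
    f (fun k => r * Y k) = 0 := by
  have h1 : (fun k => r * Y k) = r • Y := rfl
  rw [h1, map_smul]
  exact Subtype.ext (hr _ (f Y).2)

section

variable (b : RelBasis p (infHeight p A).toAddSubgroup ι)

theorem end_ext {ψ χ : AddMonoid.End A} (hH : ∀ h ∈ infHeight p A, ψ h = χ h)
    (ha : ∀ i, ψ (b.a i) = χ (b.a i)) : ψ = χ :=
  b.hom_ext (ψ := (ψ : A →+ A)) (χ := (χ : A →+ A)) hH ha

theorem ord_of_kill {Y : AddMonoid.End A} (hY : ∀ h ∈ infHeight p A, Y h = 0) (i : ι) :
    p ^ b.n i • Y (b.a i) = 0 := by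
  rw [← map_nsmul]
  exact hY _ (b.mem i)

open Classical in
/-- The restriction of `Y` to the basis elements in `S`. -/
noncomputable def restr (Y : AddMonoid.End A) (hY : ∀ h ∈ infHeight p A, Y h = 0) (S : Set ι) :
    AddMonoid.End A :=
  b.hom (fun i => if i ∈ S then Y (b.a i) else 0) (fun i => by
    by_cases hi : i ∈ S
    · rw [if_pos hi]; exact ord_of_kill b hY i
    · rw [if_neg hi, smul_zero])

theorem restr_H (Y : AddMonoid.End A) (hY : ∀ h ∈ infHeight p A, Y h = 0) (S : Set ι) :
    ∀ h ∈ infHeight p A, restr b Y hY S h = 0 := fun _ hh => b.hom_H _ _ hh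

theorem restr_mem (Y : AddMonoid.End A) (hY : ∀ h ∈ infHeight p A, Y h = 0) (S : Set ι) {i : ι}
    (hi : i ∈ S) : restr b Y hY S (b.a i) = Y (b.a i) :=
  (b.hom_a _ _ i).trans (if_pos hi)

theorem restr_not_mem (Y : AddMonoid.End A) (hY : ∀ h ∈ infHeight p A, Y h = 0) (S : Set ι)
    {i : ι} (hi : i ∉ S) : restr b Y hY S (b.a i) = 0 :=
  (b.hom_a _ _ i).trans (if_neg hi)

/-- Splitting of the basis. -/
theorem split_restr (f : (ℕ → AddMonoid.End A) →ₗ[AddMonoid.End A] infHeight p A)
    (X : ℕ → AddMonoid.End A) (hX : ∀ k, ∀ h ∈ infHeight p A, X k h = 0) (S : Set ι) :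
    f X = f (fun k => restr b (X k) (hX k) S) + f (fun k => restr b (X k) (hX k) Sᶜ) := by
  rw [← map_add]
  congr 1
  funext k
  refine end_ext b (fun h hh => ?_) (fun i => ?_)
  · show X k h = restr b (X k) (hX k) S h + restr b (X k) (hX k) Sᶜ h
    rw [hX k h hh, restr_H b _ _ _ h hh, restr_H b _ _ _ h hh, add_zero]
  · show X k (b.a i) = restr b (X k) (hX k) S (b.a i) + restr b (X k) (hX k) Sᶜ (b.a i)
    by_cases hi : i ∈ S
    · rw [restr_mem b _ _ _ hi, restr_not_mem b _ _ _ (show i ∉ Sᶜ from fun h => h hi), add_zero]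
    · rw [restr_not_mem b _ _ _ hi, restr_mem b _ _ _ hi, zero_add]

/-- Sequences supported on an infinite homocyclic part are killed. -/
theorem kills_homocyclic (c : Corr b)
    (f : (ℕ → AddMonoid.End A) →ₗ[AddMonoid.End A] infHeight p A) (m : ℕ)
    (hm : {i | b.n i = m}.Infinite) (Y : ℕ → AddMonoid.End A)
    (hY : ∀ k, ∀ h ∈ infHeight p A, Y k h = 0) (hYm : ∀ k i, b.n i ≠ m → Y k (b.a i) = 0) :
    f Y = 0 := by
  classical
  let L := {i // b.n i = m}
  have hL : Infinite L := hm.to_subtype
  obtain ⟨σ⟩ : Nonempty (ℕ × L ≃ L) := by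
    rw [← Cardinal.lift_mk_eq'.{v, v}]
    rw [Cardinal.lift_inj, Cardinal.mk_prod, Cardinal.mk_nat, Cardinal.lift_aleph0,
      Cardinal.lift_id', Cardinal.aleph0_mul_eq]
    exact Cardinal.aleph0_le_mk L
  let σ' : ℕ × L → ι := fun q => (σ q : L).1
  have hσ' : Function.Injective σ' := Subtype.val_injective.comp σ.injective
  have hσn : ∀ q, b.n (σ' q) = m := fun q => (σ q).2
  let ρ : ι → A := Function.extend σ' (fun q => Y q.1 (b.a q.2)) 0
  have hρσ : ∀ q, ρ (σ' q) = Y q.1 (b.a q.2) := fun q => hσ'.extend_apply _ _ q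
  have hρ0 : ∀ i, b.n i ≠ m → ρ i = 0 := by
    intro i hi
    have : ρ i = (0 : ι → A) i := Function.extend_apply' _ _ _ (by
      rintro ⟨q, rfl⟩
      exact hi (hσn q))
    simpa using this
  have hρ : ∀ i, p ^ b.n i • ρ i = 0 := by
    intro i
    by_cases hi : ∃ q, σ' q = i
    · obtain ⟨q, rfl⟩ := hi
      rw [hρσ, hσn]
      have := ord_of_kill b (hY q.1) q.2.1
      rwa [q.2.2] at this
    · have : ρ i = (0 : ι → A) i := Function.extend_apply' _ _ _ hi
      rw [this, Pi.zero_apply, smul_zero]
  let r : AddMonoid.End A := b.hom ρ hρ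
  let s : ℕ → L → A := fun k i => b.a (σ' (k, i)) - (c.h (σ' (k, i)) m +
    linearCombination ℤ b.a (c.β (σ' (k, i)) m))
  have hs : ∀ k i, p ^ m • s k i = 0 := by
    intro k i
    have := c.eq (σ' (k, i)) m
    rw [hσn] at this
    show p ^ m • (_ - _) = 0
    rw [smul_sub, this, sub_self]
  let V : ℕ → AddMonoid.End A := fun k =>
    b.hom (fun i => if hi : b.n i = m then s k ⟨i, hi⟩ else 0) (fun i => by
      by_cases hi : b.n i = m
      · rw [dif_pos hi, hi]; exact hs k _
      · rw [dif_neg hi, smul_zero])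
  have hYV : Y = fun k => r * V k := by
    funext k
    refine end_ext b (fun h hh => ?_) (fun i => ?_)
    · show Y k h = r (V k h)
      have : V k h = 0 := b.hom_H _ _ hh
      rw [this, map_zero, hY k h hh]
    · show Y k (b.a i) = r (V k (b.a i))
      by_cases hi : b.n i = m
      · have h1 : V k (b.a i) = s k ⟨i, hi⟩ := by
          show b.hom _ _ (b.a i) = _
          rw [b.hom_a, dif_pos hi]
        have h2 : r (s k ⟨i, hi⟩) = Y k (b.a i) := by
          show b.hom ρ hρ (b.a _ - (_ + _)) = _
          rw [map_sub, b.hom_a, b.hom_add_lc ρ hρ (c.mem _ _), lc_zero, sub_zero, hρσ]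
          intro j hj
          exact hρ0 j (c.supp _ _ j hj).ne'
        rw [h1, h2]
      · have h1 : V k (b.a i) = 0 := by
          show b.hom _ _ (b.a i) = _
          rw [b.hom_a, dif_neg hi]
        rw [h1, map_zero, hYm k i hi]
  rw [hYV]
  exact kills_mul f r (fun h hh => b.hom_H ρ hρ hh) V

/-- **Main lemma.** If `A / p ^ ω A` is an unbounded direct sum of cyclic groups, then every
`End A`-linear map from `(End A) ^ ω` to `p ^ ω A` kills all sequences of endomorphisms vanishing
on `p ^ ω A`. -/
theorem kills (hunb : ∀ M : ℕ, ∃ i, M ≤ b.n i)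
    (f : (ℕ → AddMonoid.End A) →ₗ[AddMonoid.End A] infHeight p A)
    (X : ℕ → AddMonoid.End A) (hX : ∀ k, ∀ h ∈ infHeight p A, X k h = 0) : f X = 0 := by
  classical
  obtain ⟨c⟩ := nonempty_corr b
  obtain ⟨r, hr⟩ := exists_approx b c
  let t : ℕ → ι → A := fun k i => X k (b.a i)
  have ht : ∀ k i, p ^ b.n i • t k i = 0 := fun k i => ord_of_kill b (hX k) i
  let Λ : Set ι := {i | {j | b.n j = b.n i}.Countable}
  have hΛ : Λ.Countable := by
    have h1 : Λ ⊆ ⋃ m : ℕ, (if {j | b.n j = m}.Countable then {j | b.n j = m} else ∅) := by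
      intro i hi
      refine Set.mem_iUnion.2 ⟨b.n i, ?_⟩
      have hi' : {j | b.n j = b.n i}.Countable := hi
      rw [if_pos hi']
      rfl
    refine (Set.countable_iUnion fun m => ?_).mono h1
    split_ifs with h
    · exact h
    · exact Set.countable_empty
  obtain ⟨P, N, hN⟩ := exists_PS (b := b) (c := c) (t := t) hr hΛ ht
  obtain ⟨i0, hi0⟩ := hunb N
  have hi0S : i0 ∈ P.S := by
    by_contra h
    exact absurd (hN i0 h) (by omega)
  have hΛS : Λ ⊆ P.S := P.base ⟨i0, hi0S⟩
  -- the covered part
  have hcov : f (fun k => restr b (X k) (hX k) P.S) = 0 := by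
    choose w h β h1 h2 h3 h4 h5 using P.cov
    let W : ℕ → AddMonoid.End A := fun k =>
      b.hom (fun i => if hi : i ∈ P.S then w i hi k else 0) (fun i => by
        by_cases hi : i ∈ P.S
        · rw [dif_pos hi]; exact h1 i hi k
        · rw [dif_neg hi, smul_zero])
    let V : ℕ → AddMonoid.End A := fun k =>
      b.hom (fun i => if hi : i ∈ P.S then h i hi k + linearCombination ℤ b.a (β i hi k) else 0)
        (fun i => by
          by_cases hi : i ∈ P.S
          · rw [dif_pos hi]; exact h4 i hi k
          · rw [dif_neg hi, smul_zero])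
    let r1 : AddMonoid.End A := r
    let r2 : AddMonoid.End A := b.hom P.ρ P.ord
    have hsum : (fun k => restr b (X k) (hX k) P.S) =
        (fun k => r1 * W k) + (fun k => r2 * V k) := by
      funext k
      refine end_ext b (fun y hy => ?_) (fun i => ?_)
      · show restr b (X k) (hX k) P.S y = r (W k y) + r2 (V k y)
        have e1 : W k y = 0 := b.hom_H _ _ hy
        have e2 : V k y = 0 := b.hom_H _ _ hy
        rw [e1, e2, map_zero, map_zero, add_zero, restr_H b _ _ _ y hy]
      · show restr b (X k) (hX k) P.S (b.a i) = r (W k (b.a i)) + r2 (V k (b.a i))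
        by_cases hi : i ∈ P.S
        · have e1 : W k (b.a i) = w i hi k := by
            show b.hom _ _ (b.a i) = _
            rw [b.hom_a, dif_pos hi]
          have e2 : V k (b.a i) = h i hi k + linearCombination ℤ b.a (β i hi k) := by
            show b.hom _ _ (b.a i) = _
            rw [b.hom_a, dif_pos hi]
          have e3 : r2 (h i hi k + linearCombination ℤ b.a (β i hi k)) =
              linearCombination ℤ P.ρ (β i hi k) := b.hom_add_lc P.ρ P.ord (h2 i hi k) _
          rw [e1, e2, e3, restr_mem b _ _ _ hi]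
          exact h5 i hi k
        · have e1 : W k (b.a i) = 0 := by
            show b.hom _ _ (b.a i) = _
            rw [b.hom_a, dif_neg hi]
          have e2 : V k (b.a i) = 0 := by
            show b.hom _ _ (b.a i) = _
            rw [b.hom_a, dif_neg hi]
          rw [e1, e2, map_zero, map_zero, add_zero, restr_not_mem b _ _ _ hi]
    rw [hsum, map_add, kills_mul f r1 hr.1 W,
      kills_mul f r2 (fun y hy => b.hom_H P.ρ P.ord hy) V, add_zero]
  -- the bounded rest
  have hrest : ∀ M : ℕ, ∀ Y : ℕ → AddMonoid.End A, (∀ k, ∀ h ∈ infHeight p A, Y k h = 0) →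
      (∀ k i, ¬ (i ∉ P.S ∧ b.n i < M) → Y k (b.a i) = 0) → f Y = 0 := by
    intro M
    induction M with
    | zero =>
      intro Y hY hY0
      have : Y = 0 := by
        funext k
        refine end_ext b (fun y hy => ?_) (fun i => ?_)
        · rw [hY k y hy]; rfl
        · rw [hY0 k i (by rintro ⟨_, h⟩; exact absurd h (Nat.not_lt_zero _))]; rfl
      rw [this, map_zero]
    | succ M ih =>
      intro Y hY hY0
      rw [split_restr b f Y hY {i | b.n i = M}]
      have e1 : f (fun k => restr b (Y k) (hY k) {i | b.n i = M}) = 0 := by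
        by_cases hex : ∃ i, i ∉ P.S ∧ b.n i = M
        · obtain ⟨i, hi, hiM⟩ := hex
          have hinf : {j | b.n j = M}.Infinite := by
            intro hfin
            apply hi
            apply hΛS
            show {j | b.n j = b.n i}.Countable
            rw [hiM]
            exact hfin.countable
          exact kills_homocyclic b c f M hinf _ (fun k => restr_H b _ _ _)
            (fun k i hi => restr_not_mem b _ _ _ hi)
        · have : (fun k => restr b (Y k) (hY k) {i | b.n i = M}) = 0 := by
            funext k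
            refine end_ext b (fun y hy => ?_) (fun i => ?_)
            · rw [restr_H b _ _ _ y hy]; rfl
            · by_cases hi : b.n i = M
              · rw [restr_mem b _ _ _ (show i ∈ {i | b.n i = M} from hi), hY0 k i (fun h =>
                  hex ⟨i, h.1, hi⟩)]
                rfl
              · rw [restr_not_mem b _ _ _ (show i ∉ {i | b.n i = M} from hi)]; rfl
          rw [this, map_zero]
      have e2 : f (fun k => restr b (Y k) (hY k) {i | b.n i = M}ᶜ) = 0 := by
        apply ih
        · exact fun k => restr_H b _ _ _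
        · intro k i hi
          by_cases hiM : b.n i = M
          · exact restr_not_mem b _ _ _ (fun h => h hiM)
          · rw [restr_mem b _ _ _ (show i ∈ {i | b.n i = M}ᶜ from hiM)]
            apply hY0
            rintro ⟨h1, h2⟩
            exact hi ⟨h1, by omega⟩
      rw [e1, e2, add_zero]
  rw [split_restr b f X hX P.S, hcov, zero_add]
  refine hrest N _ (fun k => restr_H b _ _ _) (fun k i hi => ?_)
  by_cases hiS : i ∈ P.S
  · exact restr_not_mem b _ _ _ (fun h => h hiS)
  · exact absurd ⟨hiS, hN i hiS⟩ hi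

end

end Pool.Agent.Lib_MP_fa2e48_ulm
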