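import Mathlib
import Pool.Agent.Lib_MP_fa2e48_al.Unbounded
import Pool.Agent.Lib_MP_fa2e48_al.Divisible
import Pool.Agent.Lib_MP_fa2e48_ulm.Main

/-!
# The reduction from `A` to `p ^ ω A` with its own endomorphism ring
-/

namespace Pool.Agent.Lib_MP_fa2e48_ulm

open Finsupp Pool.Agent.Lib_MP_fa2e48_al

/-- Slenderness over the endomorphism ring is invariant under isomorphism (one direction). -/
theorem slender_of_equiv {G G' : Type*} [AddCommGroup G] [AddCommGroup G'] (e : G ≃+ G')
    (h : IsSlender (AddMonoid.End G) G) : IsSlender (AddMonoid.End G') G' := by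
  intro f
  let conj : AddMonoid.End G → AddMonoid.End G' := fun φ =>
    (e.toAddMonoidHom.comp ((φ : G →+ G).comp e.symm.toAddMonoidHom) : G' →+ G')
  have hconj : ∀ φ x, conj φ x = e (φ (e.symm x)) := fun φ x => rfl
  let g : (ℕ → AddMonoid.End G) →ₗ[AddMonoid.End G] G :=
    { toFun := fun x => e.symm (f fun k => conj (x k))
      map_add' := by
        intro x y
        have : (fun k => conj ((x + y) k)) = (fun k => conj (x k)) + fun k => conj (y k) := by
          funext k
          ext z
          show e ((x k + y k) (e.symm z)) = e (x k (e.symm z)) + e (y k (e.symm z))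
          rw [← map_add]
          rfl
        rw [this, map_add, map_add]
      map_smul' := by
        intro φ x
        have : (fun k => conj ((φ • x) k)) = conj φ • fun k => conj (x k) := by
          funext k
          ext z
          show e (φ (x k (e.symm z))) = e (φ (e.symm (e (x k (e.symm z)))))
          rw [AddEquiv.symm_apply_apply]
        rw [this, map_smul]
        show e.symm (e (φ (e.symm _))) = φ (e.symm _)
        rw [AddEquiv.symm_apply_apply] }
  refine (h g).subset ?_
  intro n hn hn'
  apply hn
  have h1 : (fun k => conj ((Pi.single n (1 : AddMonoid.End G) : ℕ → AddMonoid.End G) k)) =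
      Pi.single n (1 : AddMonoid.End G') := by
    funext k
    by_cases hk : k = n
    · subst hk
      rw [Pi.single_eq_same, Pi.single_eq_same]
      ext z
      show e (e.symm z) = z
      rw [AddEquiv.apply_symm_apply]
    · rw [Pi.single_eq_of_ne hk, Pi.single_eq_of_ne hk]
      ext z
      show e 0 = 0
      rw [map_zero]
  have h2 : e.symm (f (Pi.single n 1)) = 0 := by
    rw [← h1]
    exact hn'
  exact (map_eq_zero_iff e.symm e.symm.injective).1 h2

theorem slender_iff_of_equiv {G G' : Type*} [AddCommGroup G] [AddCommGroup G'] (e : G ≃+ G') :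
    IsSlender (AddMonoid.End G) G ↔ IsSlender (AddMonoid.End G') G' :=
  ⟨slender_of_equiv e, slender_of_equiv e.symm⟩

section

variable {p : ℕ} {A : Type*} [AddCommGroup A] {ι : Type*}

/-- Restriction of endomorphisms to `p ^ ω A`. -/
noncomputable def res (p : ℕ) (A : Type*) [AddCommGroup A] :
    AddMonoid.End A →+* AddMonoid.End (infHeight p A) :=
  Module.toAddMonoidEnd (AddMonoid.End A) (infHeight p A)

theorem res_apply (φ : AddMonoid.End A) (h : infHeight p A) : (res p A φ h : A) = φ h := rfl

/-- If `p ^ ω A` is slender over `End A`, then over its own endomorphism ring. -/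
theorem slender_own (h : IsSlender (AddMonoid.End A) (infHeight p A)) :
    IsSlender (AddMonoid.End (infHeight p A)) (infHeight p A) := by
  intro g
  let f : (ℕ → AddMonoid.End A) →ₗ[AddMonoid.End A] infHeight p A :=
    { toFun := fun x => g fun k => res p A (x k)
      map_add' := by
        intro x y
        rw [← map_add]
        congr 1
      map_smul' := by
        intro φ x
        have : (fun k => res p A ((φ • x) k)) = res p A φ • fun k => res p A (x k) := by
          funext k
          simp
        rw [this, map_smul]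
        rfl }
  refine (h f).subset ?_
  intro n hn hn'
  apply hn
  have h1 : (fun k => res p A ((Pi.single n (1 : AddMonoid.End A) : ℕ → AddMonoid.End A) k)) =
      Pi.single n (1 : AddMonoid.End (infHeight p A)) := by
    funext k
    by_cases hk : k = n
    · subst hk
      rw [Pi.single_eq_same, Pi.single_eq_same, map_one]
    · rw [Pi.single_eq_of_ne hk, Pi.single_eq_of_ne hk, map_zero]
  rw [← h1]
  exact hn'

/-- All endomorphisms of `p ^ ω A` extend to `A`. -/
theorem res_surjective (b : RelBasis p (infHeight p A).toAddSubgroup ι) :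
    Function.Surjective (res p A) := by
  intro Φ
  have hdiv : ∀ i, ∃ g : A, p ^ b.n i • g = (Φ ⟨p ^ b.n i • b.a i, b.mem i⟩ : infHeight p A) := by
    intro i
    exact (Φ ⟨p ^ b.n i • b.a i, b.mem i⟩ : infHeight p A).2 (b.n i)
  choose g hg using hdiv
  obtain ⟨ψ, hψ, -⟩ := b.exists_hom
    ((infHeight p A).toAddSubgroup.subtype.comp (Φ : infHeight p A →+ infHeight p A)) g hg
  refine ⟨ψ, ?_⟩
  ext h
  exact hψ h

/-- If `p ^ ω A` is slender over its own endomorphism ring and `A / p ^ ω A` is an unbounded direct
sum of cyclic groups, then `p ^ ω A` is slender over `End A`. -/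
theorem slender_of_own (b : RelBasis p (infHeight p A).toAddSubgroup ι)
    (hunb : ∀ M : ℕ, ∃ i, M ≤ b.n i)
    (h : IsSlender (AddMonoid.End (infHeight p A)) (infHeight p A)) :
    IsSlender (AddMonoid.End A) (infHeight p A) := by
  intro f
  have hsurj := res_surjective b
  let s : AddMonoid.End (infHeight p A) → AddMonoid.End A := Function.surjInv hsurj
  have hs : ∀ Φ, res p A (s Φ) = Φ := Function.surjInv_eq hsurj
  have hker : ∀ X Y : ℕ → AddMonoid.End A, (∀ k, res p A (X k) = res p A (Y k)) → f X = f Y := by
    intro X Y hXY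
    rw [← sub_eq_zero, ← map_sub]
    refine kills b hunb f _ fun k y hy => ?_
    show X k y - Y k y = 0
    have := congrArg (fun Φ : AddMonoid.End (infHeight p A) => ((Φ ⟨y, hy⟩ : infHeight p A) : A))
      (hXY k)
    rw [sub_eq_zero]
    exact this
  let g : (ℕ → AddMonoid.End (infHeight p A)) →ₗ[AddMonoid.End (infHeight p A)]
      infHeight p A :=
    { toFun := fun x => f fun k => s (x k)
      map_add' := by
        intro x y
        rw [← map_add]
        apply hker
        intro k
        rw [hs, Pi.add_apply, Pi.add_apply, map_add, hs, hs]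
      map_smul' := by
        intro Φ x
        have h1 : f (fun k => s ((Φ • x) k)) = f (s Φ • fun k => s (x k)) := by
          apply hker
          intro k
          rw [hs, Pi.smul_apply, Pi.smul_apply, smul_eq_mul, smul_eq_mul, map_mul, hs, hs]
        rw [h1, map_smul]
        have h2 : s Φ • f (fun k => s (x k)) = res p A (s Φ) (f fun k => s (x k)) := rfl
        rw [h2, hs]
        rfl }
  refine (h g).subset ?_
  intro n hn hn'
  apply hn
  rw [← hn']
  show f (Pi.single n 1) = f fun k => s _
  apply hker
  intro k
  rw [hs]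
  by_cases hk : k = n
  · subst hk
    rw [Pi.single_eq_same, Pi.single_eq_same, map_one]
  · rw [Pi.single_eq_of_ne hk, Pi.single_eq_of_ne hk, map_zero]

theorem mem_divPart_infHeight {d : A} (hd : d ∈ divPart p A) : d ∈ infHeight p A := by
  obtain ⟨s, rfl, hs⟩ := hd
  intro n
  refine ⟨s n, ?_⟩
  induction n with
  | zero => simp
  | succ n ih => rw [pow_succ, mul_smul, hs, ih]

theorem divPart_infHeight (h : infHeight p A) :
    h ∈ divPart p (infHeight p A) ↔ (h : A) ∈ divPart p A := by
  constructor
  · rintro ⟨s, rfl, hs⟩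
    exact ⟨fun i => s i, rfl, fun i => congrArg Subtype.val (hs i)⟩
  · rintro ⟨s, h0, hs⟩
    have hmem : ∀ i, s i ∈ infHeight p A := fun i =>
      mem_divPart_infHeight ⟨fun j => s (i + j), rfl, fun j => hs (i + j)⟩
    exact ⟨fun i => ⟨s i, hmem i⟩, Subtype.ext h0, fun i => Subtype.ext (hs i)⟩

/-- Non-reduced groups. -/
theorem slender_iff_of_nonreduced [Fact p.Prime] (hA : ∀ a : A, ∃ k : ℕ, p ^ k • a = 0)
    (hD : divPart p A ≠ ⊥) :
    IsSlender (AddMonoid.End A) A ↔ {d : A | d ∈ divPart p A ∧ p • d = 0}.Infinite := by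
  constructor
  · intro h hfin
    exact not_slender_of_divPart hA hD hfin h
  · intro hinf
    refine slender_of_divisible hA (divPart p A).toAddSubgroup ?_ hinf
    rintro d ⟨s, rfl, hs⟩
    exact ⟨s 1, ⟨fun i => s (i + 1), rfl, fun i => hs (i + 1)⟩, hs 0⟩

/-- **One step.** Let `A` be a `p`-group such that `p ^ ω A ≠ 0` and `A / p ^ ω A` is a direct sum of
cyclic groups.  Then `A` is slender over `End A` if and only if `p ^ ω A` is slender over its own
endomorphism ring. -/
theorem slender_step [Fact p.Prime] (hA : ∀ a : A, ∃ k : ℕ, p ^ k • a = 0)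
    (b : RelBasis p (infHeight p A).toAddSubgroup ι) (hne : infHeight p A ≠ ⊥) :
    IsSlender (AddMonoid.End A) A ↔
      IsSlender (AddMonoid.End (infHeight p A)) (infHeight p A) := by
  by_cases hD : divPart p A = ⊥
  · have hunb : ∀ M : ℕ, ∃ i, M ≤ b.n i := by
      by_contra hc
      push Not at hc
      obtain ⟨M, hM⟩ := hc
      -- then `p ^ M A ≤ p ^ ω A`
      have h1 : ∀ x : A, p ^ M • x ∈ infHeight p A := by
        intro x
        obtain ⟨h, hh, β, rfl⟩ := b.span x
        rw [smul_add]
        refine add_mem ((infHeight p A).toAddSubgroup.nsmul_mem hh _) ?_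
        rw [linearCombination_apply, Finsupp.sum, Finset.smul_sum]
        refine Submodule.sum_mem _ fun i _ => ?_
        have h2 : p ^ M • β i • b.a i = β i • p ^ (M - b.n i) • p ^ b.n i • b.a i := by
          rw [smul_comm, smul_smul (p ^ (M - b.n i)), ← pow_add, Nat.sub_add_cancel (hM i).le]
        rw [h2]
        exact (infHeight p A).toAddSubgroup.zsmul_mem
          ((infHeight p A).toAddSubgroup.nsmul_mem (b.mem i) _) _
      have h2 : ∀ h ∈ infHeight p A, ∃ h' ∈ infHeight p A, p • h' = h := by
        intro h hh
        obtain ⟨x, hx⟩ := hh (M + 1)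
        exact ⟨p ^ M • x, h1 x, by rw [smul_smul, ← pow_succ', hx]⟩
      choose! g hg hpg using h2
      obtain ⟨h, hh, hh0⟩ := (Submodule.ne_bot_iff _).1 hne
      apply hh0
      have h3 : h ∈ divPart p A := by
        let s : ℕ → A := fun i => Nat.rec h (fun _ x => g x) i
        have hsm : ∀ i, s i ∈ infHeight p A := by
          intro i
          induction i with
          | zero => exact hh
          | succ i ih => exact hg _ ih
        exact ⟨s, rfl, fun i => hpg _ (hsm i)⟩
      rw [hD] at h3
      simpa using h3
    rw [slender_iff_infHeight hA hne]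
    exact ⟨slender_own, slender_of_own b hunb⟩
  · have hH : ∀ a : infHeight p A, ∃ k : ℕ, p ^ k • a = 0 := by
      intro a
      obtain ⟨k, hk⟩ := hA a
      exact ⟨k, Subtype.ext hk⟩
    have hD' : divPart p (infHeight p A) ≠ ⊥ := by
      obtain ⟨d, hd, hd0⟩ := (Submodule.ne_bot_iff _).1 hD
      refine (Submodule.ne_bot_iff _).2 ⟨⟨d, mem_divPart_infHeight hd⟩,
        (divPart_infHeight _).2 hd, fun h => hd0 (congrArg Subtype.val h)⟩
    rw [slender_iff_of_nonreduced hA hD, slender_iff_of_nonreduced hH hD']
    have himg : {d : A | d ∈ divPart p A ∧ p • d = 0} =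
        Subtype.val '' {d : infHeight p A | d ∈ divPart p (infHeight p A) ∧ p • d = 0} := by
      ext d
      constructor
      · rintro ⟨h1, h2⟩
        exact ⟨⟨d, mem_divPart_infHeight h1⟩, ⟨(divPart_infHeight _).2 h1, Subtype.ext h2⟩, rfl⟩
      · rintro ⟨d, ⟨h1, h2⟩, rfl⟩
        exact ⟨(divPart_infHeight _).1 h1, congrArg Subtype.val h2⟩
    rw [himg, Set.infinite_image_iff Subtype.val_injective.injOn]

end

end Pool.Agent.Lib_MP_fa2e48_ulm
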