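import Mathlib
import Pool.Agent.Lib_MP_fa2e48_al.Summand
import Pool.Agent.Lib_MP_fa2e48_ulm.Defs
import Pool.Agent.Lib_MP_fa2e48_ulm.Step

/-!
# Iteration of the reduction step
-/

namespace Pool.Agent.Lib_MP_fa2e48_ulm

open Finsupp Pool.Agent.Lib_MP_fa2e48_al

universe u

variable {p : ℕ} [hp : Fact p.Prime] {A : Type u} [AddCommGroup A]

/-- A basis modulo `H` from a decomposition of `A / H` into cyclic groups. -/
theorem exists_relBasis (hA : ∀ a : A, ∃ k : ℕ, p ^ k • a = 0) (H : AddSubgroup A)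
    (h : IsSumOfCyclics (A ⧸ H)) : ∃ ι : Type u, Nonempty (RelBasis p H ι) := by
  classical
  obtain ⟨ι, m, ⟨e⟩⟩ := h
  let g : ι → DirectSum ι fun i => ZMod (m i) := fun i => DirectSum.of (fun i => ZMod (m i)) i 1
  have hcomp : ∀ (β : ι →₀ ℤ) (i : ι), (linearCombination ℤ g β) i = (β i : ZMod (m i)) := by
    intro β i
    have h1 : (linearCombination ℤ g β) i =
        DirectSum.component ℤ ι (fun i => ZMod (m i)) i (linearCombination ℤ g β) := rfl
    rw [h1, linearCombination_apply, Finsupp.sum, map_sum, Finset.sum_eq_single i]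
    · rw [map_zsmul]
      have : DirectSum.component ℤ ι (fun i => ZMod (m i)) i (g i) = 1 := by
        show (DirectSum.of (fun i => ZMod (m i)) i 1) i = 1
        rw [DirectSum.of_eq_same]
      rw [this, zsmul_eq_mul, mul_one]
    · intro j _ hji
      rw [map_zsmul]
      have : DirectSum.component ℤ ι (fun i => ZMod (m i)) i (g j) = 0 := by
        show (DirectSum.of (fun i => ZMod (m i)) j 1) i = 0
        rw [DirectSum.of_eq_of_ne _ _ _ hji.symm]
      rw [this, smul_zero]
    · intro hi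
      rw [Finsupp.notMem_support_iff.1 hi, zero_smul, map_zero]
  have hspan : ∀ y : DirectSum ι fun i => ZMod (m i), ∃ β : ι →₀ ℤ,
      linearCombination ℤ g β = y := by
    intro y
    induction y using DirectSum.induction_on with
    | zero => exact ⟨0, map_zero _⟩
    | of i z =>
      obtain ⟨c, rfl⟩ := ZMod.intCast_surjective z
      refine ⟨single i c, ?_⟩
      rw [linearCombination_single]
      show c • DirectSum.of (fun i => ZMod (m i)) i 1 = _
      rw [← map_zsmul, zsmul_eq_mul, mul_one]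
    | add x y hx hy =>
      obtain ⟨β, rfl⟩ := hx
      obtain ⟨γ, rfl⟩ := hy
      exact ⟨β + γ, map_add _ _ _⟩
  have hm : ∀ i, ∃ n : ℕ, m i = p ^ n := by
    intro i
    obtain ⟨a, ha⟩ := QuotientAddGroup.mk_surjective (e.symm (g i))
    obtain ⟨k, hk⟩ := hA a
    have h1 : p ^ k • g i = 0 := by
      have : p ^ k • e.symm (g i) = 0 := by
        rw [← ha, ← QuotientAddGroup.mk_nsmul, hk]; rfl
      rw [← map_nsmul] at this
      exact (map_eq_zero_iff e.symm e.symm.injective).1 this
    have h2 : ((p ^ k : ℕ) : ZMod (m i)) = 0 := by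
      have h3 := hcomp (single i ((p ^ k : ℕ) : ℤ)) i
      rw [linearCombination_single, natCast_zsmul, h1, single_eq_same] at h3
      rw [← Int.cast_natCast (R := ZMod (m i)), ← h3]
      rfl
    rw [ZMod.natCast_eq_zero_iff] at h2
    obtain ⟨n, -, hn⟩ := (Nat.dvd_prime_pow hp.out).1 h2
    exact ⟨n, hn⟩
  choose n hn using hm
  choose a ha using fun i => QuotientAddGroup.mk_surjective (e.symm (g i))
  have hlc : ∀ β : ι →₀ ℤ, ((linearCombination ℤ a β : A) : A ⧸ H) =
      e.symm (linearCombination ℤ g β) := by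
    intro β
    rw [linearCombination_apply, linearCombination_apply, Finsupp.sum, Finsupp.sum, map_sum]
    have : ((∑ i ∈ β.support, β i • a i : A) : A ⧸ H) =
        ∑ i ∈ β.support, ((β i • a i : A) : A ⧸ H) := map_sum (QuotientAddGroup.mk' H) _ _
    rw [this]
    refine Finset.sum_congr rfl fun i _ => ?_
    rw [map_zsmul, ← ha]
    rfl
  refine ⟨ι, ⟨⟨a, n, ?_, ?_, ?_⟩⟩⟩
  · intro i
    rw [← QuotientAddGroup.eq_zero_iff]
    have h1 := hlc (single i ((p ^ n i : ℕ) : ℤ))
    rw [linearCombination_single, natCast_zsmul] at h1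
    rw [h1]
    have h2 : linearCombination ℤ g (single i ((p ^ n i : ℕ) : ℤ)) = 0 := by
      rw [linearCombination_single, natCast_zsmul]
      show p ^ n i • DirectSum.of (fun i => ZMod (m i)) i 1 = 0
      rw [← map_nsmul, nsmul_eq_mul, mul_one, ← hn i, ZMod.natCast_self, map_zero]
    rw [h2, map_zero]
  · intro x
    obtain ⟨β, hβ⟩ := hspan (e (x : A ⧸ H))
    refine ⟨x - linearCombination ℤ a β, ?_, β, by abel⟩
    rw [← QuotientAddGroup.eq_zero_iff, QuotientAddGroup.mk_sub, hlc, hβ,
      AddEquiv.symm_apply_apply, sub_self]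
  · intro β hβ i
    rw [← QuotientAddGroup.eq_zero_iff, hlc, map_eq_zero_iff e.symm e.symm.injective] at hβ
    have h1 := hcomp β i
    rw [hβ] at h1
    rw [← hn i, ← ZMod.intCast_zmod_eq_zero_iff_dvd, ← h1]
    rfl

/-- **One step**, with the hypothesis in terms of the quotient. -/
theorem slender_step' (hA : ∀ a : A, ∃ k : ℕ, p ^ k • a = 0)
    (hC : IsSumOfCyclics (A ⧸ (infHeight p A).toAddSubgroup)) (hne : infHeight p A ≠ ⊥) :
    IsSlender (AddMonoid.End A) A ↔
      IsSlender (AddMonoid.End (infHeight p A)) (infHeight p A) := by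
  obtain ⟨ι, ⟨b⟩⟩ := exists_relBasis hA _ hC
  exact slender_step hA b hne

omit hp in
theorem ulm_succ_ne_bot {n : ℕ} : ulm p A (n + 1) ≠ ⊥ ↔ infHeight p (ulm p A n) ≠ ⊥ := by
  rw [not_iff_not]
  show (infHeight p (ulm p A n)).toAddSubgroup.map (ulm p A n).subtype = ⊥ ↔ _
  rw [AddSubgroup.map_eq_bot_iff_of_injective _ (ulm p A n).subtype_injective]
  constructor
  · intro h
    rw [Submodule.eq_bot_iff]
    intro x hx
    have : x ∈ (infHeight p (ulm p A n)).toAddSubgroup := hx
    rw [h] at this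
    exact this
  · intro h
    rw [AddSubgroup.eq_bot_iff_forall]
    intro x hx
    have : x ∈ infHeight p (ulm p A n) := hx
    rw [h] at this
    simpa using this

omit hp in
theorem ulm_torsion (hA : ∀ a : A, ∃ k : ℕ, p ^ k • a = 0) (n : ℕ) :
    ∀ a : ulm p A n, ∃ k : ℕ, p ^ k • a = 0 := by
  intro a
  obtain ⟨k, hk⟩ := hA a
  exact ⟨k, Subtype.ext hk⟩

omit hp in
theorem ulm_ne_bot_of_succ {n : ℕ} (h : ulm p A (n + 1) ≠ ⊥) : ulm p A n ≠ ⊥ := by
  intro h0
  apply h
  rw [eq_bot_iff]
  rintro _ ⟨x, -, rfl⟩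
  exact h0.le x.2

/-- Iteration of the reduction. -/
theorem slender_iff_ulm (hA : ∀ a : A, ∃ k : ℕ, p ^ k • a = 0) (n : ℕ)
    (hC : ∀ i < n, IsSumOfCyclics (ulm p A i ⧸ (infHeight p (ulm p A i)).toAddSubgroup))
    (hn : ulm p A n ≠ ⊥) :
    IsSlender (AddMonoid.End A) A ↔ IsSlender (AddMonoid.End (ulm p A n)) (ulm p A n) := by
  induction n with
  | zero => exact slender_iff_of_equiv AddSubgroup.topEquiv.symm
  | succ n ih =>
    rw [ih (fun i hi => hC i (by omega)) (ulm_ne_bot_of_succ hn),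
      slender_step' (ulm_torsion hA n) (hC n (by omega)) (ulm_succ_ne_bot.1 hn)]
    exact slender_iff_of_equiv
      ((infHeight p (ulm p A n)).toAddSubgroup.equivMapOfInjective (ulm p A n).subtype
        (ulm p A n).subtype_injective)

/-- The classification of slender separable groups (from `SlenderClassification`). -/
theorem slender_iff_of_separable (hA : ∀ a : A, ∃ k : ℕ, p ^ k • a = 0)
    (hinf : infHeight p A = ⊥) (h0 : ∃ a : A, a ≠ 0) :
    IsSlender (AddMonoid.End A) A ↔
      (∃ k : ℕ, (∀ a : A, p ^ (k + 1) • a = 0) ∧ (Set.range fun a : A => p ^ k • a).Infinite) ∨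
      ((∀ k : ℕ, ∃ a : A, p ^ k • a ≠ 0) ∧ ¬ IsTorsionComplete p A) := by
  constructor
  · intro h
    by_cases hU : ∀ k : ℕ, ∃ a : A, p ^ k • a ≠ 0
    · exact Or.inr ⟨hU, (slender_iff_separable hA hU hinf).1 h⟩
    · push Not at hU
      classical
      obtain ⟨K, hK, hmin⟩ : ∃ K, (∀ a : A, p ^ K • a = 0) ∧
          ∀ j < K, ¬ (∀ a : A, p ^ j • a = 0) :=
        ⟨Nat.find hU, Nat.find_spec hU, fun j hj => Nat.find_min hU hj⟩
      rcases K with _ | k
      · obtain ⟨a, ha⟩ := h0
        exact absurd (by simpa using hK a) ha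
      · refine Or.inl ⟨k, hK, ?_⟩
        intro hfin
        have h1 := hmin k (Nat.lt_succ_self k)
        push Not at h1
        obtain ⟨a, ha⟩ := h1
        let N : Submodule (AddMonoid.End A) A :=
          { carrier := Set.range fun a : A => p ^ k • a
            add_mem' := by
              rintro _ _ ⟨x, rfl⟩ ⟨y, rfl⟩
              exact ⟨x + y, smul_add _ _ _⟩
            zero_mem' := ⟨0, smul_zero _⟩
            smul_mem' := by
              rintro φ _ ⟨x, rfl⟩
              exact ⟨φ x, by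
                show p ^ k • φ x = φ (p ^ k • x)
                rw [map_nsmul]⟩ }
        exact not_isSlender_of_finite_submodule N hfin (p ^ k • a) ⟨a, rfl⟩ ha h
  · rintro (⟨k, hk, hinf'⟩ | ⟨hU, hT⟩)
    · exact slender_of_bounded k hk hinf'
    · exact (slender_iff_separable hA hU hinf).2 hT

end Pool.Agent.Lib_MP_fa2e48_ulm
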