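import Mathlib
import Pool.Agent.Lib_MP_fa2e48_al.Defs
import Pool.Agent.Lib_MP_fa2e48_ulm.Defs
import Pool.Agent.Lib_MP_fa2e48_ulm.Chain

/-!
# Mader's question: reduction along Ulm factors that are direct sums of cyclic groups

The definitions used in the statement are `IsSlender`, `infHeight`, `IsTorsionComplete`
(`Pool/Agent/Lib_MP_fa2e48_al/Defs.lean`) and `IsSumOfCyclics`, `ulm`
(`Pool/Agent/Lib_MP_fa2e48_ulm/Defs.lean`).
-/

namespace Pool.Agent.Lib_MP_fa2e48_ulm.UlmReductionOld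

open Pool.Agent.Lib_MP_fa2e48_al Pool.Agent.Lib_MP_fa2e48_ulm

/-- Let `A` be a `p`-group and `n` a natural number such that the Ulm factors
`p ^ (ω i) A / p ^ (ω (i + 1)) A`, `i < n`, are direct sums of cyclic groups and
`U = p ^ (ω n) A ≠ 0`.  Then `A` is slender over its endomorphism ring iff `U` is slender over its
own endomorphism ring.  If moreover `p ^ (ω (n + 1)) A = 0`, this holds iff either
`p ^ (k + 1) U = 0` and `p ^ k U` is infinite for some `k`, or `U` is unbounded and not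
torsion-complete. -/
theorem result (p : ℕ) [Fact p.Prime] (A : Type*) [AddCommGroup A]
    (hA : ∀ a : A, ∃ k : ℕ, p ^ k • a = 0) (n : ℕ)
    (hC : ∀ i < n, IsSumOfCyclics (ulm p A i ⧸ (infHeight p (ulm p A i)).toAddSubgroup))
    (hn : ulm p A n ≠ ⊥) :
    (IsSlender (AddMonoid.End A) A ↔ IsSlender (AddMonoid.End (ulm p A n)) (ulm p A n)) ∧
    (ulm p A (n + 1) = ⊥ → (IsSlender (AddMonoid.End A) A ↔
      (∃ k : ℕ, (∀ a ∈ ulm p A n, p ^ (k + 1) • a = 0) ∧
        ((fun a : A => p ^ k • a) '' (ulm p A n : Set A)).Infinite) ∨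
      ((∀ k : ℕ, ∃ a ∈ ulm p A n, p ^ k • a ≠ 0) ∧ ¬ IsTorsionComplete p (ulm p A n)))) := by
  have h1 := slender_iff_ulm hA n hC hn
  refine ⟨h1, fun hsep => ?_⟩
  have hinf : infHeight p (ulm p A n) = ⊥ := by
    by_contra h
    exact ulm_succ_ne_bot.2 h hsep
  obtain ⟨x, hx⟩ := AddSubgroup.ne_bot_iff_exists_ne_zero.1 hn
  rw [h1, slender_iff_of_separable (ulm_torsion hA n) hinf ⟨x, hx⟩]
  have himg : ∀ k : ℕ, ((fun a : A => p ^ k • a) '' (ulm p A n : Set A)) =
      Subtype.val '' (Set.range fun a : ulm p A n => p ^ k • a) := by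
    intro k
    ext y
    constructor
    · rintro ⟨a, ha, rfl⟩
      exact ⟨p ^ k • ⟨a, ha⟩, ⟨⟨a, ha⟩, rfl⟩, rfl⟩
    · rintro ⟨_, ⟨a, rfl⟩, rfl⟩
      exact ⟨a, a.2, rfl⟩
  refine or_congr (exists_congr fun k => and_congr ?_ ?_) (and_congr (forall_congr' fun k => ?_)
    Iff.rfl)
  · exact ⟨fun h a ha => congrArg Subtype.val (h ⟨a, ha⟩), fun h a => Subtype.ext (h a a.2)⟩
  · rw [himg, Set.infinite_image_iff Subtype.val_injective.injOn]
  · constructor
    · rintro ⟨a, ha⟩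
      exact ⟨a, a.2, fun h => ha (Subtype.ext h)⟩
    · rintro ⟨a, ha, h⟩
      exact ⟨⟨a, ha⟩, fun h' => h (congrArg Subtype.val h')⟩

end Pool.Agent.Lib_MP_fa2e48_ulm.UlmReductionOld
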